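import Mathlib
import Pool.Agent.N848.OL.Stm

/-!
# OL/HLP: Hilbert 90 modulo `p`-th powers (helper692)
-/

set_option autoImplicit false

namespace Pool.Agent.N692.OL

open NumberField IsDedekindDomain Module

theorem hlp (K K' : Type) [Field K] [Field K'] [Algebra K K'] [FiniteDimensional K K']
    [IsGalois K K'] (p : ℕ) (hmu : ∀ z : K', z ^ p = 1 → z = 1) (σ : K' ≃ₐ[K] K')
    (hσ : ∀ τ : K' ≃ₐ[K] K', ∃ i : ℕ, τ = σ ^ i) (f h : K') (hf : f ≠ 0)
    (hfh : σ f = f * h ^ p) :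
    ∃ (b : K) (j : K'), b ≠ 0 ∧ j ≠ 0 ∧ f = algebraMap K K' b * j ^ p := by
  have hg : ∀ x, x ∈ Subgroup.zpowers σ := by
    intro x
    obtain ⟨i, rfl⟩ := hσ x
    exact Subgroup.npow_mem_zpowers σ i
  have : IsCyclic (K' ≃ₐ[K] K') := ⟨σ, hg⟩
  have hNf : Algebra.norm K f ≠ 0 := Algebra.norm_ne_zero_iff.2 hf
  have h1 : Algebra.norm K (σ f) = Algebra.norm K f := Algebra.norm_eq_of_algEquiv σ f
  rw [hfh, map_mul, map_pow] at h1
  have h2 : (Algebra.norm K h) ^ p = 1 := by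
    have : Algebra.norm K f * (Algebra.norm K h) ^ p = Algebra.norm K f * 1 := by
      rw [mul_one]; exact h1
    exact mul_left_cancel₀ hNf this
  have h3 : Algebra.norm K h = 1 := by
    have h4 := hmu (algebraMap K K' (Algebra.norm K h)) (by rw [← map_pow, h2, map_one])
    apply (algebraMap K K').injective
    rw [h4, map_one]
  obtain ⟨y, hy⟩ := groupCohomology.exists_div_of_norm_eq_one hg h3
  have hy0 : (y : K') ≠ 0 := y.ne_zero
  have hsy : σ (y : K') ≠ 0 := by
    rw [Ne, EmbeddingLike.map_eq_zero_iff]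
    exact hy0
  have hy1 : (y : K') = h * σ (y : K') := by
    rw [← hy]
    field_simp
  have hfix : σ (f * (y : K') ^ p) = f * (y : K') ^ p := by
    rw [map_mul, map_pow, hfh]
    conv_rhs => rw [hy1]
    rw [mul_pow]
    ring
  have hfix2 : ∀ i : ℕ, (σ ^ i) (f * (y : K') ^ p) = f * (y : K') ^ p := by
    intro i
    induction i with
    | zero => rw [pow_zero]; rfl
    | succ i ih => rw [pow_succ, AlgEquiv.mul_apply, hfix, ih]
  have hmem : f * (y : K') ^ p ∈ (⊥ : IntermediateField K K') := by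
    rw [IsGalois.mem_bot_iff_fixed]
    intro τ
    obtain ⟨i, rfl⟩ := hσ τ
    exact hfix2 i
  rw [IntermediateField.mem_bot] at hmem
  obtain ⟨b, hb⟩ := hmem
  refine ⟨b, (y : K')⁻¹, ?_, inv_ne_zero hy0, ?_⟩
  · rintro rfl
    rw [map_zero] at hb
    exact mul_ne_zero hf (pow_ne_zero p hy0) hb.symm
  · rw [hb, inv_pow, mul_assoc, mul_inv_cancel₀ (pow_ne_zero p hy0), mul_one]

theorem t_HLP : Pool.Agent.N848.OL.S_HLP := by
  intro p _ K K' _ _ _ _ _ hG hmu σ hσ f h hf _ hfh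
  have : IsGalois K K' := hG
  have : FiniteDimensional K K' := Module.Finite.of_restrictScalars_finite ℚ K K'
  exact hlp K K' p hmu σ hσ f h hf hfh

end Pool.Agent.N692.OL
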